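import Pool.Agent.H6.Ext.Fin

/-!
# The invariants of `H^{m-1}(IA_n; ℚ)` and the Borel classes of `GL_n(ℤ)`

All cohomology has rational coefficients.  Cochains are functions on lists: a cochain of degree `d`
of a group `Γ` is a function of `d + 1` elements of `Γ` which is equivariant under left
multiplication, with the usual alternating coboundary (`delta`, `deltaV`).  The cohomology of `IA_n`
is computed with functions of `d + 1` elements of `Aut(F_n)` which are invariant under left
multiplication by `IA_n`.
-/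

namespace Pool.Agent.Results.MP_099f14_al.Dichotomy

open Pool.Agent.H6.Ext.Stair

/-- The automorphism group of the free group of rank `n`. -/
abbrev AutF (n : ℕ) : Type := MulAut (FreeGroup (Fin n))

/-- `IA_n`: the automorphisms which act trivially on the abelianisation. -/
def IA (n : ℕ) : Subgroup (AutF n) where
  carrier := {f | ∀ w, Abelianization.of (f w) = Abelianization.of w}
  one_mem' := fun _ => rfl
  mul_mem' := by
    intro f g hf hg w
    rw [MulAut.mul_apply, hf, hg]
  inv_mem' := by
    intro f hf w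
    have := hf (f⁻¹ w)
    rw [MulAut.apply_inv_self] at this
    exact this.symm

lemma of_congr {n : ℕ} (f : AutF n) {u v : FreeGroup (Fin n)}
    (h : Abelianization.of u = Abelianization.of v) :
    Abelianization.of (f u) = Abelianization.of (f v) := by
  have : ∀ w, Abelianization.of (f w) =
      Abelianization.map f.toMonoidHom (Abelianization.of w) := fun w => by
    rw [Abelianization.map_of]
    rfl
  rw [this, this, h]

instance (n : ℕ) : (IA n).Normal where
  conj_mem := by
    intro f hf g w
    have h1 := hf (g⁻¹ w)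
    have h2 := of_congr g h1
    rw [MulAut.apply_inv_self] at h2
    exact h2

/-- `GL_n(ℤ)`, as the quotient of `Aut(F_n)` by `IA_n`. -/
abbrev GLZ (n : ℕ) : Type := AutF n ⧸ IA n

/-- the projection `Aut(F_n) → GL_n(ℤ)` -/
abbrev proj (n : ℕ) : AutF n →* GLZ n := QuotientGroup.mk' (IA n)

/-- the automorphism `x_i ↦ x_i⁻¹`, which maps to the central element `-1` of `GL_n(ℤ)` -/
def sigma (n : ℕ) : AutF n :=
  MonoidHom.toMulEquiv (FreeGroup.lift fun i => (FreeGroup.of i)⁻¹)
    (FreeGroup.lift fun i => (FreeGroup.of i)⁻¹) (by ext i; simp) (by ext i; simp)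

/-- `H^m(Γ; ℚ) = 0` -/
def Vanishes (Γ : Type) [Group Γ] (m : ℕ) : Prop :=
  ∀ f : List Γ → ℚ, Inv f → (∀ l, l.length = m + 2 → delta f l = 0) →
    ∃ t : List Γ → ℚ, Inv t ∧ ∀ l, l.length = m + 1 → f l = delta t l

/-- `-1` acts on `H¹(IA_n; ℚ) = Hom(IA_n, ℚ)` as `-1`. -/
def OddH1 (n : ℕ) : Prop :=
  ∀ h : IA n → ℚ, (∀ a b, h (a * b) = h a + h b) →
    ∀ a, h (MulAut.conjNormal (sigma n)⁻¹ a) = - h a

lemma of_sigma (n : ℕ) (w : FreeGroup (Fin n)) :
    Abelianization.of (sigma n w) = (Abelianization.of w)⁻¹ := by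
  induction w using FreeGroup.induction_on with
  | C1 => simp
  | of i => simp [sigma]
  | inv_of i _ => simp [sigma]
  | mul a b ha hb => rw [map_mul, map_mul, ha, hb, map_mul, mul_inv]

lemma sigma_central (n : ℕ) (q : GLZ n) : proj n (sigma n) * q = q * proj n (sigma n) := by
  obtain ⟨g, rfl⟩ := QuotientGroup.mk'_surjective (IA n) q
  rw [← map_mul, ← map_mul]
  refine (QuotientGroup.eq.2 fun w => ?_)
  have h1 : Abelianization.of (g (sigma n w)) = Abelianization.of (sigma n (g w)) := by
    have e : ∀ w, Abelianization.of (g w) =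
        Abelianization.map g.toMonoidHom (Abelianization.of w) := fun w => by
      rw [Abelianization.map_of]
      rfl
    rw [of_sigma, e (sigma n w), of_sigma, map_inv, ← e w]
  have h2 := of_congr (sigma n * g)⁻¹ h1
  have h3 : (sigma n * g)⁻¹ (sigma n (g w)) = w := by
    change (sigma n * g)⁻¹ ((sigma n * g) w) = w
    simp
  rw [h3] at h2
  exact h2

lemma sigma_sq (n : ℕ) : sigma n * sigma n = 1 := by
  ext w
  induction w using FreeGroup.induction_on with
  | C1 => simp
  | of i => simp [sigma]
  | inv_of i _ => simp [sigma]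
  | mul a b ha hb => rw [map_mul, map_mul, ha, hb]

/-- `H^q(IA_n; ℚ)`: the cocycles of degree `q` modulo the coboundaries, a cochain being a function
on lists in `Aut(F_n)` which is invariant under left multiplication by `IA_n`. -/
def H (n q : ℕ) : Type := Mp (proj n) 1 q

instance (n q : ℕ) : AddCommGroup (H n q) := Submodule.addCommGroup (Mp (proj n) 1 q)

instance (n q : ℕ) : Module ℚ (H n q) := Submodule.module (Mp (proj n) 1 q)

/-- The part `M_q` of `H^q(IA_n; ℚ)` on which `-1` acts trivially (see `mem_M`): the classes of the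
cocycles which are also invariant under `sigma n`. -/
def M (n q : ℕ) : Type := Mp (proj n) (sigma n) q

instance (n q : ℕ) : AddCommGroup (M n q) := Submodule.addCommGroup (Mp (proj n) (sigma n) q)

instance (n q : ℕ) : Module ℚ (M n q) := Submodule.module (Mp (proj n) (sigma n) q)

lemma proj_out (n : ℕ) (g : GLZ n) : proj n g.out = g := Quotient.out_eq' g

lemma one_central (n : ℕ) (g : GLZ n) : proj n 1 * g = g * proj n 1 := by
  rw [map_one, one_mul, mul_one]

/-- `GL_n(ℤ)` acts on `H^q(IA_n; ℚ)`: the class of `a` sends the class of `φ` to the class of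
`x ↦ φ(a⁻¹ x)`. -/
noncomputable def actH (n q : ℕ) (g : GLZ n) (v : H n q) : H n q :=
  actP (proj n) 1 (one_central n) q g.out v

/-- the same action on `M_q` -/
noncomputable def actM (n q : ℕ) (g : GLZ n) (v : M n q) : M n q :=
  actP (proj n) (sigma n) (sigma_central n) q g.out v

/-- `actH` is a representation -/
noncomputable def repH (n q : ℕ) : Representation ℚ (GLZ n) (H n q) :=
  rep (proj n) 1 (one_central n) q Quotient.out (proj_out n)

lemma repH_apply (n q : ℕ) (g : GLZ n) (v : H n q) : repH n q g v = actH n q g v := rfl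

/-- `actM` is a representation -/
noncomputable def repM (n q : ℕ) : Representation ℚ (GLZ n) (M n q) :=
  rep (proj n) (sigma n) (sigma_central n) q Quotient.out (proj_out n)

lemma repM_apply (n q : ℕ) (g : GLZ n) (v : M n q) : repM n q g v = actM n q g v := rfl

lemma proj_sigma_sq (n : ℕ) : proj n (sigma n) * proj n (sigma n) = 1 := by
  rw [← map_mul, sigma_sq, map_one]

/-- the classes in `M n q` are the classes fixed by `-1` -/
lemma mem_M (n q : ℕ) (v : Mp (proj n) 1 q) :
    (v : W (proj n) q) ∈ Mp (proj n) (sigma n) q ↔ actH n q (proj n (sigma n)) v = v := by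
  have e : ∀ w : Mp (proj n) 1 q, w = actH n q (proj n (sigma n)) v →
      (w : W (proj n) q) = TW (proj n) q (sigma n) v := by
    rintro w rfl
    exact TW_eq (proj n) 1 q (proj_out n _) v v.2
  rw [mem_Mp (proj n) (sigma n) (proj_sigma_sq n) q v v.2, ← e _ rfl]
  exact Subtype.coe_inj

/-- `H^q(IA_n; ℚ)` has a nonzero `GL_n(ℤ)`-invariant element -/
def HasInvariant (n q : ℕ) : Prop := ∃ v : H n q, v ≠ 0 ∧ ∀ g, actH n q g v = v

/-- `H^p(GL_n(ℤ); M_q) = 0` -/
def TwistedVanish (n p q : ℕ) : Prop := VanishV (actM n q) p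

/-- `H^p(GL_n(ℤ); V) = 0` for all finite-dimensional rational representations `V` -/
def FinVanish (n p : ℕ) : Prop :=
  ∀ (V : Type) [AddCommGroup V] [Module ℚ V] [FiniteDimensional ℚ V]
    (ρ : Representation ℚ (GLZ n) V), VanishV (fun g v => ρ g v) p

/-- `M_q` is finite-dimensional -/
def FinDim (n q : ℕ) : Prop := FiniteDimensional ℚ (M n q)

/-- **Main theorem.** -/
theorem result (n : ℕ) (hodd : OddH1 n) :
    (∀ m, 3 ≤ m → Vanishes (AutF n) m → ¬ Vanishes (GLZ n) m → HasInvariant n (m - 1) ∨
      ∃ p q, 1 ≤ p ∧ 2 ≤ q ∧ p + q = m - 1 ∧ ¬ TwistedVanish n p q) ∧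
    (Vanishes (AutF n) 5 → ¬ Vanishes (GLZ n) 5 → FinVanish n 1 → FinVanish n 2 →
      FinDim n 2 → FinDim n 3 → HasInvariant n 4) := by
  have main : ∀ m, 3 ≤ m → Vanishes (AutF n) m → ¬ Vanishes (GLZ n) m →
      HasInvariant n (m - 1) ∨
        ∃ p q, 1 ≤ p ∧ 2 ≤ q ∧ p + q = m - 1 ∧ ¬ TwistedVanish n p q := by
    intro m hm hAut hGL
    by_contra hcon
    rw [not_or] at hcon
    obtain ⟨hinv, htw⟩ := hcon
    apply hGL
    intro f hf hc
    obtain ⟨b, hb, hbf⟩ := hAut (fun l => f (l.map (proj n)))
      (fun g l => by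
        have e : (l.map (g * ·)).map (proj n) = (l.map (proj n)).map (proj n g * ·) := by
          simp [Function.comp_def]
        simp only
        rw [e, hf])
      (fun l hl => by
        rw [← delta_map]
        exact hc _ (by simpa using hl))
    refine staircase (proj n) (QuotientGroup.mk'_surjective _) m (by omega) f hf hc b hb hbf
      (E2zero_of_rep (proj n) (one_central n) (m - 1) Quotient.out (proj_out n)
        fun v hv => ?_) ?_
    · by_contra hne
      exact hinv ⟨v, hne, hv⟩
    intro p q hp hq hpq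
    rcases Nat.eq_or_lt_of_le hq with h | h
    · subst h
      refine E2_one (proj n) (QuotientGroup.mk'_surjective _) (sigma n) (sigma_central n) ?_ p
      intro h hh a ha
      have ha' : a ∈ IA n := (QuotientGroup.eq_one_iff a).1 ha
      have := hodd (fun a => h a) (fun a b => hh a b ((QuotientGroup.eq_one_iff _).2 a.2)
        ((QuotientGroup.eq_one_iff _).2 b.2)) ⟨a, ha'⟩
      simpa using this
    · refine E2_of_even (proj n) (proj n (sigma n)) (sigma_central n) (proj_sigma_sq n) p q
        (E2even_of_rep (proj n) (sigma n) (sigma_central n) (proj_sigma_sq n) p q hp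
          Quotient.out (proj_out n) ?_)
      by_contra hne
      exact htw ⟨p, q, hp, h, by omega, hne⟩
  refine ⟨main, fun hAut hGL hV1 hV2 h2 h3 => ?_⟩
  rcases main 5 (by omega) hAut hGL with h | ⟨p, q, hp, hq, hpq, h⟩
  · exact h
  · exfalso
    have : (p = 1 ∧ q = 3) ∨ (p = 2 ∧ q = 2) := by omega
    rcases this with ⟨rfl, rfl⟩ | ⟨rfl, rfl⟩
    · have : FiniteDimensional ℚ (M n 3) := h3
      exact h (hV1 (M n 3) (repM n 3))
    · have : FiniteDimensional ℚ (M n 2) := h2
      exact h (hV2 (M n 2) (repM n 2))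

end Pool.Agent.Results.MP_099f14_al.Dichotomy
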